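import Pool.Graph.R_seed8.Helper927.Cube.IND
import Pool.Graph.R_seed8.Helper927.Cube.FIN
import Pool.Graph.R_seed8.Helper927.Cube.N3
import Pool.Graph.R_seed8.Helper927.Cube.BAS
import Pool.Graph.R_seed8.Helper927.Cube.A1
import Pool.Graph.R_seed8.Helper927.Cube.A2
import Pool.Graph.R_seed8.Helper927.Cube.A3
import Pool.Graph.R_seed8.Helper927.Cube.A4
import Pool.Graph.R_seed8.Helper927.Cube.A5
import Pool.Graph.R_seed8.Helper927.Cube.A6
import Pool.Graph.R_seed8.Helper927.Cube.A8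

set_option autoImplicit false

namespace Pool.Agent.KS6_36.CL

open Finset Pool.Agent.CubeLike

theorem final_of (hall : ∀ K : ℕ, 2 ≤ K → ∀ m : ℕ, 2 ^ K + 2 ≤ m → m ≤ 2 ^ (K + 1) → Att m)
    (h1 : Att 1) (h2 : Att 2) (h4 : Att 4) (h3 : ¬ Att 3) :
    ∃ f : ℕ → ℕ, (∀ n, n ≤ 2 → f n = 0) ∧
      (∀ K, 2 ≤ K → f (K + 1) = 2 ^ K - 1 ∨ f (K + 1) = 2 ^ K - 2) ∧
      ∀ m : ℕ, 0 < m → (Att m ↔ ∃ n : ℕ, 2 ^ n - f n ≤ m ∧ m ≤ 2 ^ n) := by
  classical
  obtain ⟨f, hf⟩ : ∃ f : ℕ → ℕ, f = fun n => if n ≤ 2 then 0 else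
    if Att (2 ^ (n - 1) + 1) then 2 ^ (n - 1) - 1 else 2 ^ (n - 1) - 2 := ⟨_, rfl⟩
  have hf0 : ∀ n, n ≤ 2 → f n = 0 := by
    intro n hn; rw [hf]; simp only; rw [if_pos hn]
  have hfK : ∀ K, 2 ≤ K → f (K + 1) = if Att (2 ^ K + 1) then 2 ^ K - 1 else 2 ^ K - 2 := by
    intro K hK
    rw [hf]; simp only
    rw [if_neg (by omega), Nat.add_sub_cancel]
  have hp4 : ∀ K, 2 ≤ K → 4 ≤ 2 ^ K := by
    intro K hK
    calc 4 = 2 ^ 2 := by norm_num
      _ ≤ 2 ^ K := Nat.pow_le_pow_right (by norm_num) hK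
  refine ⟨f, hf0, fun K hK => by rw [hfK K hK]; split_ifs <;> simp,
    fun m hm => ⟨fun hA => ?_, ?_⟩⟩
  · by_cases hm5 : 5 ≤ m
    · obtain ⟨K, hK⟩ : ∃ K, K = Nat.log 2 (m - 1) := ⟨_, rfl⟩
      have hK1 : 2 ^ K ≤ m - 1 := by
        rw [hK]; exact Nat.pow_log_le_self 2 (by omega)
      have hK2 : m - 1 < 2 ^ (K + 1) := by
        rw [hK]; exact Nat.lt_pow_succ_log_self (by norm_num) _
      have hK3 : 2 ≤ K := by
        by_contra h
        have h5 : 2 ^ (K + 1) ≤ 2 ^ 2 := Nat.pow_le_pow_right (by norm_num) (by omega)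
        omega
      have h4K := hp4 K hK3
      refine ⟨K + 1, ?_, by omega⟩
      rw [hfK K hK3]
      have hpow : 2 ^ (K + 1) = 2 * 2 ^ K := by rw [pow_succ]; ring
      rw [hpow]
      by_cases hcase : m = 2 ^ K + 1
      · rw [hcase] at hA
        rw [if_pos hA]
        omega
      · split_ifs <;> omega
    · have hm4 : m ≤ 4 := by omega
      have hm' : m = 1 ∨ m = 2 ∨ m = 3 ∨ m = 4 := by omega
      rcases hm' with h | h | h | h
      · exact ⟨0, by rw [hf0 0 (by norm_num), h]; norm_num, by rw [h]; norm_num⟩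
      · exact ⟨1, by rw [hf0 1 (by norm_num), h]; norm_num, by rw [h]; norm_num⟩
      · rw [h] at hA; exact absurd hA h3
      · exact ⟨2, by rw [hf0 2 (by norm_num), h]; norm_num, by rw [h]; norm_num⟩
  · rintro ⟨n, hn1, hn2⟩
    by_cases hn : n ≤ 2
    · rw [hf0 n hn] at hn1
      have hn' : n = 0 ∨ n = 1 ∨ n = 2 := by omega
      rcases hn' with h | h | h
      · subst h
        have : m = 1 := by norm_num at hn1 hn2; omega
        rw [this]; exact h1
      · subst h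
        have : m = 2 := by norm_num at hn1 hn2; omega
        rw [this]; exact h2
      · subst h
        have : m = 4 := by norm_num at hn1 hn2; omega
        rw [this]; exact h4
    · obtain ⟨K, rfl⟩ : ∃ K, n = K + 1 := ⟨n - 1, by omega⟩
      have hK : 2 ≤ K := by omega
      have h4K := hp4 K hK
      rw [hfK K hK] at hn1
      have hpow : 2 ^ (K + 1) = 2 * 2 ^ K := by rw [pow_succ]; ring
      rw [hpow] at hn1
      by_cases hA : Att (2 ^ K + 1)
      · rw [if_pos hA] at hn1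
        by_cases hcase : m = 2 ^ K + 1
        · rw [hcase]; exact hA
        · exact hall K hK m (by omega) hn2
      · rw [if_neg hA] at hn1
        exact hall K hK m (by omega) hn2


theorem all : ∀ K : ℕ, 2 ≤ K → ∀ m : ℕ, 2 ^ K + 2 ≤ m → m ≤ 2 ^ (K + 1) → Att m := by
  have h1 := Pool.Agent.CubeLike.att_one
  have h2 := Pool.Agent.CubeLike.att_two
  have h4 := Pool.Agent.CubeLike.att_double 2 h2
  have h7 := Pool.Agent.CubeLike.att_seven_of h2
  have h6 := Pool.Agent.CubeLike.att_six_of h1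
  have h12 := Pool.Agent.CubeLike.att_double 6 h6
  have h10 := Pool.Agent.CubeLike.att_ten_of h1
  have h19 := Pool.Agent.CubeLike.att_nineteen_of h2
  have h11 := Pool.Agent.CubeLike.att_eleven_of h1
  have h13 := Pool.Agent.CubeLike.att_thirteen_of h2
  have h18 := Pool.Agent.CubeLike.att_eighteen_of h1
  have h35 := Pool.Agent.CubeLike.att_thirtyfive_of h1
  have h45 := Pool.Agent.CubeLike.att_45_of h12
  have h67 := Pool.Agent.CubeLike.att_67_of h18
  have h25 := Pool.Agent.CubeLike.att_25_of h7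
  exact fun K hK m hm hm' => Pool.Agent.CubeLike.att_all_of h1 h2 Pool.Agent.CubeLike.att_double
      Pool.Agent.CubeLike.f1 Pool.Agent.CubeLike.f2 Pool.Agent.CubeLike.f3
      Pool.Agent.CubeLike.f4 Pool.Agent.CubeLike.f5 Pool.Agent.CubeLike.f6
      h6 h7 h10 h11 h13 h18 h19 h25 h35 h45 h67 K hK m hm hm'

theorem four : Att 4 := Pool.Agent.CubeLike.att_double 2 Pool.Agent.CubeLike.att_two

theorem main : (∀ m : ℕ, 0 < m → m ≠ 3 → (∀ K, 2 ≤ K → m ≠ 2 ^ K + 1) → Att m) ∧ ¬ Att 3 ∧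
    ∃ f : ℕ → ℕ, (∀ n, n ≤ 2 → f n = 0) ∧
      (∀ K, 2 ≤ K → f (K + 1) = 2 ^ K - 1 ∨ f (K + 1) = 2 ^ K - 2) ∧
      ∀ m : ℕ, 0 < m → (Att m ↔ ∃ n : ℕ, 2 ^ n - f n ≤ m ∧ m ≤ 2 ^ n) := by
  refine ⟨fun m hm h3 hK => ?_, Pool.Agent.CubeLike.not_att_three,
    final_of all Pool.Agent.CubeLike.att_one Pool.Agent.CubeLike.att_two four
      Pool.Agent.CubeLike.not_att_three⟩
  by_cases hm5 : 5 ≤ m
  · obtain ⟨K, hKd⟩ : ∃ K, K = Nat.log 2 (m - 1) := ⟨_, rfl⟩
    have hK1 : 2 ^ K ≤ m - 1 := by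
      rw [hKd]; exact Nat.pow_log_le_self 2 (by omega)
    have hK2 : m - 1 < 2 ^ (K + 1) := by
      rw [hKd]; exact Nat.lt_pow_succ_log_self (by norm_num) _
    have hK3 : 2 ≤ K := by
      by_contra h
      have h5 : 2 ^ (K + 1) ≤ 2 ^ 2 := Nat.pow_le_pow_right (by norm_num) (by omega)
      omega
    have := hK K hK3
    exact all K hK3 m (by omega) (by omega)
  · have hm' : m = 1 ∨ m = 2 ∨ m = 4 := by omega
    rcases hm' with h | h | h
    · rw [h]; exact Pool.Agent.CubeLike.att_one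
    · rw [h]; exact Pool.Agent.CubeLike.att_two
    · rw [h]; exact four

end Pool.Agent.KS6_36.CL
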